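import Pool.Agent.R104.PO.Dim
import Pool.Agent.R104.PO.Std

/-!
# Complementary vectors of pure O-sequences are sums of M-vectors

Monomials in `n` variables are their exponent vectors `Fin n →₀ ℕ`.  A monomial algebra `S/I`
of finite dimension is given by the finite set `U` of the monomials outside `I`: a finite set
containing `1` and closed under taking divisors (an order ideal).  Its Hilbert function counts
the monomials of `U` of each degree.  It is level with socle in degree `d` exactly when every
monomial of `U` divides one of degree `d` of `U`.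
-/

namespace Pool.Agent.Results.MP_d42654_co.Complementary

/-- A finite nonempty order ideal of monomials in `n` variables. -/
def IsOrderIdeal {n : ℕ} (U : Finset (Fin n →₀ ℕ)) : Prop :=
  0 ∈ U ∧ ∀ α ∈ U, ∀ β, β ≤ α → β ∈ U

/-- The number of monomials of degree `q` in `U` (Hilbert function of the monomial algebra). -/
noncomputable def hilb {n : ℕ} (U : Finset (Fin n →₀ ℕ)) (q : ℕ) : ℕ := (U.filter fun α => α.degree = q).card

/-- M-vectors (extended by zeros). -/
def IsMVector (h : ℕ → ℕ) : Prop :=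
  ∃ (n : ℕ) (U : Finset (Fin n →₀ ℕ)), IsOrderIdeal U ∧ ∀ q, h q = hilb U q

/-- Pure O-sequences of socle degree `d` (extended by zeros). -/
def IsPureOSequence (d : ℕ) (a : ℕ → ℕ) : Prop :=
  ∃ (n : ℕ) (U : Finset (Fin n →₀ ℕ)), IsOrderIdeal U ∧
    (∀ α ∈ U, ∃ m ∈ U, α ≤ m ∧ m.degree = d) ∧ ∀ q, a q = hilb U q

open Pool.Agent.R104.PO in
/-- For every pure O-sequence `a` of socle degree `d ≥ 1` the complementary vector
`c q = a (d - q) - a q`, `0 ≤ q ≤ (d - 1) / 2`, is a sum of M-vectors. -/
theorem result (d : ℕ) (hd : 1 ≤ d) (a : ℕ → ℕ) (ha : IsPureOSequence d a) :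
    ∃ (r : ℕ) (h : Fin r → ℕ → ℕ), (∀ j, IsMVector (h j)) ∧
      ∀ q ≤ (d - 1) / 2, (a (d - q) : ℤ) - (a q : ℤ) = ∑ j, (h j q : ℤ) := by
  classical
  obtain ⟨n, U, ⟨h0U, hdown⟩, hpure, haU⟩ := ha
  have hpure' : ∀ α ∈ U, ∃ m ∈ top U d, α ≤ m := by
    intro α hα
    obtain ⟨m, hm, hle, hdeg⟩ := hpure α hα
    exact ⟨m, Finset.mem_filter.2 ⟨hm, hdeg⟩, hle⟩
  obtain ⟨ms, hms, -⟩ := hpure' 0 h0U
  have hn : 0 < n := by
    rcases Nat.eq_zero_or_pos n with h | h
    · subst h
      have h1 : ms.degree = d := (Finset.mem_filter.1 hms).2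
      have h2 : ms = 0 := Subsingleton.elim _ _
      rw [h2, map_zero] at h1
      omega
    · exact h
  set r := ((top U d).erase ms).card with hr
  have hcard : (top U d).card = r + 1 := by
    rw [hr, Finset.card_erase_add_one hms]
  let e := ((top U d).erase ms).equivFin
  have hN : d < d + 1 := Nat.lt_succ_self d
  let gen : Fin (r + 1) → EE n (d + 1) :=
    Fin.cons (∑ m ∈ top U d, psi m) fun j => psi (e.symm j).1
  have hgen0 : gen 0 = ∑ m ∈ top U d, psi m := rfl
  have hgens : ∀ j : Fin r, gen j.succ = psi (e.symm j).1 := fun _ => rfl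
  have hspan : ∀ q, Submodule.span (KF n (d + 1)) {x : EE n (d + 1) | ∃ j, ∃ β : Fin n →₀ ℕ,
      β.degree = q ∧ x = act (MvPolynomial.monomial β 1) (gen j)}
      = Submodule.span (KF n (d + 1)) {x : EE n (d + 1) | ∃ m ∈ top U d,
        ∃ β : Fin n →₀ ℕ, β.degree = q ∧ x = act (MvPolynomial.monomial β 1) (psi m)} := by
    intro q
    apply le_antisymm
    · rw [Submodule.span_le]
      rintro _ ⟨j, β, hβ, rfl⟩
      refine Fin.cases ?_ (fun j => ?_) j
      · rw [hgen0, map_sum]
        exact Submodule.sum_mem _ fun m hm => Submodule.subset_span ⟨m, hm, β, hβ, rfl⟩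
      · rw [hgens]
        exact Submodule.subset_span
          ⟨(e.symm j).1, Finset.mem_of_mem_erase (e.symm j).2, β, hβ, rfl⟩
    · rw [Submodule.span_le]
      have hother : ∀ m ∈ (top U d).erase ms, ∀ β : Fin n →₀ ℕ, β.degree = q →
          act (MvPolynomial.monomial β 1) (psi m) ∈ Submodule.span (KF n (d + 1))
            {x : EE n (d + 1) | ∃ j, ∃ β : Fin n →₀ ℕ,
              β.degree = q ∧ x = act (MvPolynomial.monomial β 1) (gen j)} := by
        intro m hm β hβ
        refine Submodule.subset_span ⟨(e ⟨m, hm⟩).succ, β, hβ, ?_⟩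
        rw [hgens, Equiv.symm_apply_apply]
      rintro _ ⟨m, hm, β, hβ, rfl⟩
      by_cases h : m = ms
      · subst h
        have h1 : act (MvPolynomial.monomial β 1) (gen 0)
            = act (MvPolynomial.monomial β 1) (psi m)
              + ∑ m' ∈ (top U d).erase m, act (MvPolynomial.monomial β 1) (psi m') := by
          rw [hgen0, map_sum, ← Finset.add_sum_erase _ _ hm]
        have h2 : act (MvPolynomial.monomial β 1) (psi m)
            = act (MvPolynomial.monomial β 1) (gen 0)
              - ∑ m' ∈ (top U d).erase m, act (MvPolynomial.monomial β 1) (psi m') := by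
          rw [h1, add_sub_cancel_right]
        rw [SetLike.mem_coe, h2]
        exact Submodule.sub_mem _ (Submodule.subset_span ⟨0, β, hβ, rfl⟩)
          (Submodule.sum_mem _ fun m' hm' => hother m' hm' β hβ)
      · exact hother m (Finset.mem_erase.2 ⟨h, hm⟩) β hβ
  have hOm := fun p hp => finrank_Om (n := n) (N := d + 1) U d hdown hpure' hN p hp
  have h0 : Module.finrank (KF n (d + 1)) (Submodule.span (KF n (d + 1))
      {x : EE n (d + 1) | ∃ j, ∃ β : Fin n →₀ ℕ,
        β.degree = 0 ∧ x = act (MvPolynomial.monomial β 1) (gen j)}) = r + 1 := by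
    rw [hspan 0, ← hcard]
    have := hOm d le_rfl
    rw [Nat.sub_self] at this
    exact this
  obtain ⟨V, hV0, hVdown, hV⟩ := std (fun β => act (MvPolynomial.monomial β 1))
    (fun α β ψ => by
      rw [← act_mul, MvPolynomial.monomial_mul, one_mul]) gen h0 ((d - 1) / 2)
  refine ⟨r, fun j => hilb (V j), fun j => ⟨n, V j, ⟨hV0 j, hVdown j⟩, fun _ => rfl⟩, ?_⟩
  intro q hq
  have h1 := hV q hq
  rw [hspan q] at h1
  have h2 := hOm (d - q) (by omega)
  rw [show d - (d - q) = q by omega] at h2
  rw [h2, hgen0, finrank_Fm (n := n) (N := d + 1) U d hn hdown hpure' hN q (by omega)] at h1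
  rw [haU, haU]
  unfold hilb
  rw [h1]
  push_cast
  ring

end Pool.Agent.Results.MP_d42654_co.Complementary
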