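import Pool.Agent.R407.CL6

/-!
# The complementary vector of every pure O-sequence is a sum of M-vectors

A monomial in `n` variables is represented by its exponent vector `u : Fin n → ℕ`; divisibility
of monomials is the pointwise order and the degree is the sum of the entries.

A finite-dimensional monomial algebra `A = K[x_1, ..., x_n]/I` with `A ≠ 0` is given by the finite
nonempty set `L` of the monomials outside `I`; this is exactly a finite nonempty set of monomials
closed under divisors, and `dim A_q` is the number of elements of `L` of degree `q`. The socle of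
`A` is spanned by the (classes of the) maximal elements of `L`, so `A` is level with top degree
`d` if and only if all maximal elements of `L` have degree `d`. By Macaulay's theorem the
M-vectors are exactly the Hilbert functions of such monomial algebras.
-/

set_option autoImplicit false

namespace Pool.Agent.Results.MP_d42654_co.ComplementaryVectors

open Finset

/-- The degree of a monomial in `n` variables, given by its exponent vector. -/
def deg {n : ℕ} (u : Fin n → ℕ) : ℕ := ∑ i, u i

/-- An order ideal of monomials: a finite nonempty set of monomials in `n` variables closed under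
taking divisors. -/
def IsOrderIdeal {n : ℕ} (L : Finset (Fin n → ℕ)) : Prop :=
  L.Nonempty ∧ ∀ u ∈ L, ∀ v : Fin n → ℕ, v ≤ u → v ∈ L

/-- `L` is level with top degree `d`: all its elements that are maximal under divisibility have
degree `d`. -/
def IsLevel {n : ℕ} (L : Finset (Fin n → ℕ)) (d : ℕ) : Prop :=
  ∀ u ∈ L, (∀ v ∈ L, u ≤ v → v = u) → deg u = d

/-- The Hilbert function: the number of monomials of degree `q` in `L`. -/
def hilb {n : ℕ} (L : Finset (Fin n → ℕ)) (q : ℕ) : ℕ := (L.filter fun u => deg u = q).card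

/-- `(a_0, ..., a_d)` is a pure O-sequence: the Hilbert function of a level monomial algebra of
top degree `d`. -/
def IsPureOSequence (d : ℕ) (a : ℕ → ℕ) : Prop :=
  ∃ (n : ℕ) (L : Finset (Fin n → ℕ)), IsOrderIdeal L ∧ IsLevel L d ∧ ∀ q, a q = hilb L q

/-- `h` is an M-vector (extended by zeros): the Hilbert function of a finite-dimensional nonzero
monomial algebra. -/
def IsMVector (h : ℕ → ℕ) : Prop :=
  ∃ (n : ℕ) (L : Finset (Fin n → ℕ)), IsOrderIdeal L ∧ ∀ q, h q = hilb L q

/-- The complementary vector `c_q = a_(d-q) - a_q` (to be read for `q ≤ (d - 1) / 2`). -/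
def compl (d : ℕ) (a : ℕ → ℕ) (q : ℕ) : ℤ := (a (d - q) : ℤ) - (a q : ℤ)

/-- The vector `(c_0, ..., c_m)` is a sum of M-vectors. -/
def IsSumOfMVectors (m : ℕ) (c : ℕ → ℤ) : Prop :=
  ∃ (r : ℕ) (h : Fin r → ℕ → ℕ), (∀ j, IsMVector (h j)) ∧ ∀ q, q ≤ m → c q = ∑ j, (h j q : ℤ)

/-- **Main theorem.** For every pure O-sequence `(a_0, ..., a_d)` with `d ≥ 1` the complementary
vector `(c_0, ..., c_⌊(d-1)/2⌋)` is a sum of M-vectors. -/
theorem result (d : ℕ) (hd : 1 ≤ d) (a : ℕ → ℕ) (ha : IsPureOSequence d a) :
    IsSumOfMVectors ((d - 1) / 2) (compl d a) := by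
  classical
  obtain ⟨n, L, ⟨hne, hL⟩, hlev, haL⟩ := ha
  set T := L.filter fun u => deg u = d with hT
  have hmax : ∀ u ∈ L, ∃ M ∈ T, u ≤ M := by
    intro u hu
    obtain ⟨M, huM, hM⟩ := L.exists_le_maximal hu
    refine ⟨M, ?_, huM⟩
    rw [hT, Finset.mem_filter]
    refine ⟨hM.prop, hlev M hM.prop ?_⟩
    intro v hv hMv
    exact le_antisymm (hM.le_of_ge hv hMv) hMv
  have hgen : R407.CL.gen T = L := by
    ext u
    rw [R407.CL.mem_gen]
    constructor
    · rintro ⟨M, hM, huM⟩
      rw [hT, Finset.mem_filter] at hM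
      exact hL M hM.1 u huM
    · intro hu
      exact hmax u hu
  have hTne : T.Nonempty := by
    obtain ⟨u, hu⟩ := hne
    obtain ⟨M, hM, _⟩ := hmax u hu
    exact ⟨M, hM⟩
  obtain ⟨ι, hι, k, Γ, h1, h2, h3⟩ := R407.CL.sum_of_gen hd T
    (fun M hM => (Finset.mem_filter.1 hM).2) hTne
  let e := Fintype.equivFin ι
  refine ⟨Fintype.card ι, fun j => R407.CL.hf (Γ (e.symm j)), ?_, ?_⟩
  · intro j
    exact ⟨_, Γ (e.symm j), ⟨(h2 _).2, (h2 _).1⟩, fun q => rfl⟩
  · intro q hq
    have h4 := h3 q (by omega)
    rw [hgen] at h4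
    have h5 : ∀ q, a q = R407.CL.hf L q := haL
    have h6 : ∑ j, (R407.CL.hf (Γ (e.symm j)) q : ℤ) = ∑ i, (R407.CL.hf (Γ i) q : ℤ) :=
      Equiv.sum_comp e.symm (fun i => (R407.CL.hf (Γ i) q : ℤ))
    rw [h6]
    unfold compl
    rw [h5, h5, h4]
    push_cast
    ring

end Pool.Agent.Results.MP_d42654_co.ComplementaryVectors
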